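import Pool.Agent.Q181.FL.Gaifman

set_option autoImplicit false

namespace Pool.Agent.Results.MP_aa1901_an.NonConglNotMeasure

open Pool.Agent.Q181.FL

/-- In ZFC: there is a free filter on `ℕ` which is not conglomerated and is not generated by any
statistical measure. -/
theorem result : ∃ F : Filter ℕ, IsFree F ∧ ¬ IsConglomerated F ∧
    ∀ μ : Set ℕ → ℝ, IsStatisticalMeasure μ → ¬ IsGeneratedBy F μ := by
  obtain ⟨F, h1, h2, h3⟩ := exists_poor_nonmeasure
  exact ⟨F, h1, h2.not_conglomerated, h3⟩

end Pool.Agent.Results.MP_aa1901_an.NonConglNotMeasure
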